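import Pool.Agent.Helper78.DT.Goals2

/-!
# Packet DT-PA6 (MP_34c247_lc): the side conditions on the parameters
-/

namespace Pool.Agent.Helper46.DT

open Pool.Agent.Helper78.DT

theorem pa6 (hT : TllStmt) (hN : NprStmt) (h4 : Pa4Stmt) : Pa6Stmt := by
  intro c a β ha
  obtain ⟨hT1, -⟩ := hT a
  obtain ⟨L1, hL1⟩ := h4 c a β
  refine ⟨max 1 L1, fun L hL => ?_⟩
  have h1 : 1 ≤ L := le_trans (le_max_left _ _) hL
  have h2 : L1 ≤ L := le_trans (le_max_right _ _) hL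
  obtain ⟨hK0, hK2, -, -⟩ := hL1 L h2
  obtain ⟨ht, -⟩ := hT1 L h1
  have hPP : (PP c L).Prime ∧ L ^ (c + 6) ≤ PP c L ∧ PP c L ≤ 2 * L ^ (c + 6) :=
    hN (L ^ (c + 6)) (pow_pos h1 _)
  have hq0 : 0 < qn c L := Nat.mul_pos (by norm_num) (pow_pos h1 _)
  have hRR : (RR c L).Prime ∧ qn c L * PP c L ≤ RR c L ∧ RR c L ≤ 2 * (qn c L * PP c L) :=
    hN (qn c L * PP c L) (Nat.mul_pos hq0 hPP.1.pos)
  -- powers of two
  have hk : kp a L ≤ L := by
    refine le_trans ?_ ht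
    unfold kp
    refine Nat.pow_le_pow_right (by norm_num) ?_
    nlinarith [Nat.zero_le (tt a L), Nat.zero_le a]
  have hts : tt a L * sp a L ≤ L := by
    refine le_trans ?_ ht
    unfold sp
    calc tt a L * 2 ^ (tt a L * (a + 1)) ≤ 2 ^ tt a L * 2 ^ (tt a L * (a + 1)) :=
          Nat.mul_le_mul_right _ (le_of_lt Nat.lt_two_pow_self)
      _ = 2 ^ (tt a L * (a + 2)) := by rw [← pow_add]; ring_nf
      _ ≤ 2 ^ ((2 * a + 9) * tt a L) := by
          refine Nat.pow_le_pow_right (by norm_num) ?_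
          nlinarith [Nat.zero_le (tt a L), Nat.zero_le a]
  have hdd : 2 * kp a L * (tt a L * sp a L) ≤ dd a L := by
    unfold kp sp dd
    have h3 : 2 * tt a L ≤ 2 ^ (tt a L * 2) := by
      have h4 : tt a L + 1 ≤ 2 ^ tt a L := Nat.lt_two_pow_self
      rw [pow_mul]
      nlinarith
    calc 2 * 2 ^ (tt a L * (a + 5)) * (tt a L * 2 ^ (tt a L * (a + 1)))
        = (2 * tt a L) * (2 ^ (tt a L * (a + 5)) * 2 ^ (tt a L * (a + 1))) := by ring
      _ ≤ 2 ^ (tt a L * 2) * (2 ^ (tt a L * (a + 5)) * 2 ^ (tt a L * (a + 1))) :=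
          Nat.mul_le_mul_right _ h3
      _ = 2 ^ (tt a L * (2 * a + 8)) := by
          rw [← pow_add, ← pow_add]
          congr 1
          ring
  have hLr : (1 : ℝ) ≤ (L : ℝ) := by exact_mod_cast h1
  have hL0 : (0 : ℝ) < (L : ℝ) := by linarith
  have hδ : 0 < δp c L := by
    unfold δp
    positivity
  have h8 : 16 * (kp a L : ℝ) ^ 2 ≤ qn c L * δp c L ^ 2 := by
    have h5 : (qn c L : ℝ) * δp c L ^ 2 = 16 * (L : ℝ) ^ 2 := by
      unfold qn δp
      push_cast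
      field_simp
      ring
    rw [h5]
    have h6 : (kp a L : ℝ) ≤ L := by exact_mod_cast hk
    have h7 : (0 : ℝ) ≤ (kp a L : ℝ) := Nat.cast_nonneg _
    have := pow_le_pow_left₀ h7 h6 2
    linarith
  have h9 : 2 * ((tt a L * sp a L : ℕ) : ℝ) ≤ δp c L * RR c L := by
    have h5 : ((tt a L * sp a L : ℕ) : ℝ) ≤ L := by exact_mod_cast hts
    have h6 : (2 ^ 16 * (L : ℝ) ^ (2 * c + 6)) * (L : ℝ) ^ (c + 6) ≤ (RR c L : ℝ) := by
      have h7 : (2 ^ 16 * L ^ (2 * c + 6)) * L ^ (c + 6) ≤ RR c L :=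
        le_trans (Nat.mul_le_mul_left _ hPP.2.1) hRR.2.1
      exact_mod_cast h7
    have h7 : δp c L * ((2 ^ 16 * (L : ℝ) ^ (2 * c + 6)) * (L : ℝ) ^ (c + 6)) =
        2 ^ 10 * (L : ℝ) ^ (2 * c + 10) := by
      unfold δp
      field_simp
      ring
    have h8' : (L : ℝ) ≤ (L : ℝ) ^ (2 * c + 10) := by
      calc (L : ℝ) = (L : ℝ) ^ 1 := (pow_one _).symm
        _ ≤ (L : ℝ) ^ (2 * c + 10) := pow_le_pow_right₀ hLr (by omega)
    calc 2 * ((tt a L * sp a L : ℕ) : ℝ) ≤ 2 * L := by linarith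
      _ ≤ 2 ^ 10 * (L : ℝ) ^ (2 * c + 10) := by nlinarith
      _ = δp c L * ((2 ^ 16 * (L : ℝ) ^ (2 * c + 6)) * (L : ℝ) ^ (c + 6)) := h7.symm
      _ ≤ δp c L * RR c L := mul_le_mul_of_nonneg_left h6 hδ.le
  have hη0 : 0 < ηp a := by
    unfold ηp
    positivity
  have hη1 : ηp a ≤ 1 := by
    unfold ηp
    rw [div_le_one (by positivity)]
    exact one_le_pow₀ (by norm_num)
  have hκ : 0 < κp a L := by
    unfold κp
    positivity
  have hlast : (2 / ηp a) ^ tt a L ≤ sp a L * (κp a L / 2 ^ tt a L) ^ ηp a := by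
    have e1 : (2 : ℝ) / ηp a = 2 ^ a := by
      unfold ηp
      obtain ⟨b, rfl⟩ : ∃ b, a = b + 1 := ⟨a - 1, by omega⟩
      rw [Nat.add_sub_cancel]
      field_simp
      ring
    have e2 : κp a L / 2 ^ tt a L = ((2 : ℝ) ^ (tt a L))⁻¹ ^ (2 ^ (a - 1)) := by
      unfold κp
      rw [inv_pow, ← pow_mul]
      field_simp
    have e3 : (κp a L / 2 ^ tt a L) ^ ηp a = ((2 : ℝ) ^ (tt a L))⁻¹ := by
      rw [e2]
      have hH : (0 : ℝ) < (2 : ℝ) ^ (a - 1) := by positivity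
      have hx : (0 : ℝ) ≤ ((2 : ℝ) ^ (tt a L))⁻¹ := by positivity
      have e4 : ηp a = (((2 ^ (a - 1) : ℕ) : ℝ))⁻¹ := by
        unfold ηp
        push_cast
        rw [one_div]
      rw [e4]
      exact Real.pow_rpow_inv_natCast hx (by positivity)
    rw [e1, e3]
    have e5 : ((2 : ℝ) ^ a) ^ tt a L * 2 ^ tt a L = (sp a L : ℝ) := by
      unfold sp
      push_cast
      rw [← pow_mul, ← pow_add]
      congr 1
      ring
    rw [← e5]
    have : (2 : ℝ) ^ tt a L ≠ 0 := by positivity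
    rw [mul_assoc, mul_inv_cancel₀ this, mul_one]
  refine ⟨hPP.1, hRR.1, ?_, hq0, hRR.2.1, hdd, hδ, h8, h9, hη0, hη1, hκ, hlast⟩
  refine hK2.trans (le_trans ?_ hPP.2.1)
  exact Nat.pow_le_pow_right h1 (by omega)

end Pool.Agent.Helper46.DT
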